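import Pool.Agent.Helper80.AD.GoalsA
import Pool.Agent.Helper80.AD.Le

/-!
For MP_6af536_nt, project AD of helper80, packet MONO: monotonicity of the multilinear extension.
-/

set_option autoImplicit false

open Filter Topology

noncomputable section

namespace Pool.Agent.Helper87.AD

open Pool.Agent.Helper80.AD

variable {B P : Type} {k : ℕ} {h : B → P → ℝ} {Pr : AddSubgroup (P → ℝ)}
  {E : (Fin (k + 1) → B) → ℝ}

/-- Real coefficients. -/
theorem pos_real (H : MF k h Pr E) (S : Finset B) (a : B → ℝ) (p : P → ℝ) (hp : p ∈ Pr)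
    (hle : ∀ v, p v ≤ ∑ b ∈ S, a b * h b v) (z : Fin k → B) :
    0 ≤ ∑ b ∈ S, a b * E (Fin.cons b z : Fin (k + 1) → B) := by
  have hE : 0 ≤ ∑ b ∈ S, E (Fin.cons b z : Fin (k + 1) → B) :=
    Finset.sum_nonneg fun b _ => H.nn _
  refine le_of_forall_pos_le_add fun δ hδ => ?_
  set T := ∑ b ∈ S, E (Fin.cons b z : Fin (k + 1) → B) with hT
  set ε := δ / (T + 1) with hε
  have hεpos : 0 < ε := by positivity
  have hεT : ε * T ≤ δ := by
    rw [hε, div_mul_eq_mul_div, div_le_iff₀ (by positivity)]
    nlinarith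
  choose r hr1 hr2 using fun b : B => exists_rat_btwn (show a b < a b + ε by linarith)
  set d : ℕ := ∏ b ∈ S, (r b).den with hd
  have hdpos : 0 < d := Finset.prod_pos fun b _ => (r b).den_pos
  have hint : ∀ b, ∃ n : ℤ, b ∈ S → (n : ℝ) = d * (r b : ℝ) := by
    intro b
    by_cases hb : b ∈ S
    · obtain ⟨e, he⟩ := Finset.dvd_prod_of_mem (fun b => (r b).den) hb
      refine ⟨(r b).num * e, fun _ => ?_⟩
      have h1 : (r b : ℝ) * ((r b).den : ℝ) = ((r b).num : ℝ) := by
        exact_mod_cast Rat.mul_den_eq_num (r b)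
      have h2 : (d : ℝ) = ((r b).den : ℝ) * e := by
        rw [hd, he]; push_cast; ring
      rw [h2]
      push_cast
      rw [← h1]
      ring
    · exact ⟨0, fun hb' => absurd hb' hb⟩
  choose n hn using hint
  have hsum : ∀ f : B → ℝ, ∑ i : Fin S.card, f ((S.equivFin.symm i : S) : B) = ∑ b ∈ S, f b := by
    intro f
    rw [← Finset.sum_coe_sort S f]
    exact Fintype.sum_equiv S.equivFin.symm _ _ fun i => rfl
  have key := H.pos S.card (fun i => n (S.equivFin.symm i : S)) (fun i => (S.equivFin.symm i : S))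
    (d • p) (Pr.nsmul_mem hp d) (by
      intro v
      rw [hsum (fun b => (n b : ℝ) * h b v)]
      rw [Pi.smul_apply, nsmul_eq_mul]
      have h1 : (d : ℝ) * p v ≤ d * ∑ b ∈ S, a b * h b v :=
        mul_le_mul_of_nonneg_left (hle v) (Nat.cast_nonneg d)
      refine h1.trans ?_
      rw [Finset.mul_sum]
      refine Finset.sum_le_sum fun b hb => ?_
      rw [hn b hb, mul_assoc]
      have := H.hn b v
      have h3 : a b * h b v ≤ (r b : ℝ) * h b v := mul_le_mul_of_nonneg_right (hr1 b).le this
      exact mul_le_mul_of_nonneg_left h3 (Nat.cast_nonneg d)) z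
  rw [hsum (fun b => (n b : ℝ) * E (Fin.cons b z : Fin (k + 1) → B))] at key
  have h4 : ∑ b ∈ S, (n b : ℝ) * E (Fin.cons b z : Fin (k + 1) → B) ≤
      d * (∑ b ∈ S, a b * E (Fin.cons b z : Fin (k + 1) → B) + ε * T) := by
    rw [hT, Finset.mul_sum S _ ε, ← Finset.sum_add_distrib, Finset.mul_sum]
    refine Finset.sum_le_sum fun b hb => ?_
    rw [hn b hb, mul_assoc, ← add_mul]
    exact mul_le_mul_of_nonneg_left
      (mul_le_mul_of_nonneg_right (hr2 b).le (H.nn _)) (Nat.cast_nonneg d)
  have h5 : 0 ≤ ∑ b ∈ S, a b * E (Fin.cons b z : Fin (k + 1) → B) + ε * T := by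
    have h6 := key.trans h4
    exact nonneg_of_mul_nonneg_right h6 (by exact_mod_cast hdpos)
  linarith

/-- Expansion over a finite set which contains the supports. -/
theorem expand (hEEM : S_EEM) (E : (Fin (k + 1) → B) → ℝ) (S : Finset B)
    (c : Fin (k + 1) → B →₀ ℝ) (hS : ∀ j, (c j).support ⊆ S) :
    EE E c = ∑ J : Fin k → S, (∏ j : Fin k, c j.succ (J j)) *
      ∑ b ∈ S, c 0 b * E (Fin.cons b (fun j => (J j : B)) : Fin (k + 1) → B) := by
  classical
  obtain ⟨h1, h2, -, -⟩ := hEEM k B E
  have h3 := h1 S (fun j i => c j i) (fun _ i => Finsupp.single (i : B) 1)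
  have h4 : (fun j => ∑ i : S, c j i • Finsupp.single (i : B) (1 : ℝ)) = c := by
    funext j
    rw [Finset.sum_coe_sort S (fun b => c j b • Finsupp.single b (1 : ℝ))]
    ext b
    rw [Finsupp.finsetSum_apply]
    simp only [Finsupp.smul_single, smul_eq_mul, mul_one, Finsupp.single_apply]
    rw [Finset.sum_ite_eq']
    split_ifs with hb
    · rfl
    · by_contra hne
      exact hb (hS j (Finsupp.mem_support_iff.2 (Ne.symm hne)))
  rw [h4] at h3
  rw [h3]
  simp only [h2]
  rw [← (Fin.consEquiv (fun _ : Fin (k + 1) => (S : Type))).sum_comp, Fintype.sum_prod_type_right]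
  refine Finset.sum_congr rfl fun J _ => ?_
  rw [← Finset.sum_coe_sort S (fun b => c 0 b * E (Fin.cons b (fun j => (J j : B)))), Finset.mul_sum]
  refine Finset.sum_congr rfl fun s _ => ?_
  have e1 : (fun j => ((Fin.consEquiv (fun _ : Fin (k + 1) => (S : Type)) (s, J) j : S) : B)) =
      (Fin.cons (s : B) (fun j => (J j : B)) : Fin (k + 1) → B) := by
    funext j
    refine Fin.cases ?_ (fun i => ?_) j
    · rfl
    · rfl
  rw [e1, Fin.prod_univ_succ]
  have e2 : ∀ i : Fin k, (Fin.consEquiv (fun _ : Fin (k + 1) => (S : Type)) (s, J) i.succ : S) = J i :=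
    fun i => rfl
  have e3 : (Fin.consEquiv (fun _ : Fin (k + 1) => (S : Type)) (s, J) 0 : S) = s := rfl
  simp only [e2, e3]
  ring

theorem slot0 (hEEM : S_EEM) (H : MF k h Pr E) (c : Fin (k + 1) → B →₀ ℝ) (x : B →₀ ℝ)
    (hc0 : ∀ j b, 0 ≤ c j b) (hle : Le' Pr (hc h (c 0)) (hc h x)) :
    EE E c ≤ EE E (Function.update c 0 x) := by
  classical
  set S : Finset B := (Finset.univ.biUnion fun j => (c j).support) ∪ x.support with hS
  have hs1 : ∀ j, (c j).support ⊆ S := fun j =>
    (Finset.subset_biUnion_of_mem (fun j => (c j).support) (Finset.mem_univ j)).trans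
      Finset.subset_union_left
  have hs2 : ∀ j, (Function.update c 0 x j).support ⊆ S := by
    intro j
    by_cases hj : j = 0
    · subst hj; rw [Function.update_self]; exact Finset.subset_union_right
    · rw [Function.update_of_ne hj]; exact hs1 j
  rw [expand hEEM E S c hs1, expand hEEM E S _ hs2]
  refine Finset.sum_le_sum fun J _ => ?_
  have e1 : ∏ j : Fin k, (Function.update c 0 x) j.succ (J j) = ∏ j : Fin k, c j.succ (J j) :=
    Finset.prod_congr rfl fun j _ => by rw [Function.update_of_ne (Fin.succ_ne_zero j)]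
  rw [e1, Function.update_self]
  refine mul_le_mul_of_nonneg_left ?_ (Finset.prod_nonneg fun j _ => hc0 _ _)
  obtain ⟨m, hm, p, hp, hmp⟩ := hle
  have hexp : ∀ y : B →₀ ℝ, y.support ⊆ S → ∀ v, hc h y v = ∑ b ∈ S, y b * h b v := by
    intro y hy v
    unfold hc
    exact Finsupp.sum_of_support_subset _ hy _ fun b _ => by ring
  have key := pos_real H S (fun b => (m : ℝ) * (x b - c 0 b)) p hp (by
    intro v
    have h1 := hmp v
    rw [hexp (c 0) (hs1 0) v, hexp x Finset.subset_union_right v] at h1
    have h2 : ∑ b ∈ S, (m : ℝ) * (x b - c 0 b) * h b v =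
        m * ∑ b ∈ S, x b * h b v - m * ∑ b ∈ S, c 0 b * h b v := by
      rw [Finset.mul_sum, Finset.mul_sum, ← Finset.sum_sub_distrib]
      refine Finset.sum_congr rfl fun b _ => ?_
      ring
    rw [h2]
    linarith) (fun j => (J j : B))
  have h3 : ∑ b ∈ S, (m : ℝ) * (x b - c 0 b) * E (Fin.cons b (fun j => (J j : B)) : Fin (k + 1) → B) =
      m * (∑ b ∈ S, x b * E (Fin.cons b (fun j => (J j : B)) : Fin (k + 1) → B) -
        ∑ b ∈ S, c 0 b * E (Fin.cons b (fun j => (J j : B)) : Fin (k + 1) → B)) := by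
    rw [← Finset.sum_sub_distrib, Finset.mul_sum]
    refine Finset.sum_congr rfl fun b _ => ?_
    ring
  rw [h3] at key
  have h4 := nonneg_of_mul_nonneg_right key (by exact_mod_cast hm)
  linarith

theorem slot (hEEM : S_EEM) (H : MF k h Pr E) (c : Fin (k + 1) → B →₀ ℝ) (i : Fin (k + 1))
    (x : B →₀ ℝ) (hc0 : ∀ j b, 0 ≤ c j b) (hle : Le' Pr (hc h (c i)) (hc h x)) :
    EE E c ≤ EE E (Function.update c i x) := by
  classical
  obtain ⟨-, -, -, h4⟩ := hEEM k B E
  have h5 := h4 H.sym (Equiv.swap 0 i)
  have h6 := slot0 hEEM H (c ∘ Equiv.swap 0 i) x (fun j b => hc0 _ b) (by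
    rw [Function.comp_apply, Equiv.swap_apply_left]; exact hle)
  have e : Function.update (c ∘ Equiv.swap 0 i) 0 x = (Function.update c i x) ∘ Equiv.swap 0 i := by
    funext j
    rw [Function.comp_apply]
    by_cases hj : j = 0
    · subst hj
      rw [Function.update_self, Equiv.swap_apply_left, Function.update_self]
    · rw [Function.update_of_ne hj, Function.comp_apply, Function.update_of_ne]
      intro hcon
      apply hj
      have := congrArg (Equiv.swap 0 i) hcon
      rwa [Equiv.swap_apply_self, Equiv.swap_apply_right] at this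
  rw [e, h5, h5] at h6
  exact h6

theorem mono (hEEM : S_EEM) : S_MONO := by
  classical
  intro k B P h Pr E H c c' hc0 hc0' hle
  have key : ∀ T : Finset (Fin (k + 1)), EE E c ≤ EE E (fun j => if j ∈ T then c' j else c j) := by
    intro T
    induction T using Finset.induction_on with
    | empty => simp
    | insert a T ha ih =>
      refine ih.trans ?_
      have h1 := slot hEEM H (fun j => if j ∈ T then c' j else c j) a (c' a) (by
        intro j b
        split_ifs
        · exact hc0' j b
        · exact hc0 j b) (by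
        rw [if_neg ha]
        exact hle a)
      have e : Function.update (fun j => if j ∈ T then c' j else c j) a (c' a) =
          fun j => if j ∈ insert a T then c' j else c j := by
        funext j
        by_cases hj : j = a
        · subst hj
          rw [Function.update_self, if_pos (Finset.mem_insert_self _ _)]
        · rw [Function.update_of_ne hj]
          simp [hj]
      rwa [e] at h1
  have h2 := key Finset.univ
  simpa using h2

end Pool.Agent.Helper87.AD
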